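import Pool.Agent.H22.AV3B.TOR3

/-!
# Board `av3b`, module T3N: no points of order three
-/

set_option autoImplicit false

namespace Pool.Agent.H22.AV3B

open Polynomial Matrix Pool.AVR Pool.AV3 WeierstrassCurve.Affine Pool.Agent.H49.AV3

theorem mem_of_sq {L : Type} [Field L] (O : ValuationSubring L) {l : L} (h : l ^ 2 ∈ O) :
    l ∈ O := by
  rcases O.mem_or_inv_mem l with h1 | h1
  · exact h1
  · by_cases h0 : l = 0
    · rw [h0]
      exact O.zero_mem
    · have e : l = l ^ 2 * l⁻¹ := by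
        field_simp
      rw [e]
      exact O.mul_mem _ _ h h1

theorem mem_of_quartic {L : Type} [Field L] (O : ValuationSubring L) {x u a b c d : L}
    (hu : u ∈ O) (hu3 : u * 3 = 1) (ha : a ∈ O) (hb : b ∈ O) (hc : c ∈ O) (hd : d ∈ O)
    (h : 3 * x ^ 4 + a * x ^ 3 + b * x ^ 2 + c * x + d = 0) : x ∈ O := by
  rcases O.mem_or_inv_mem x with h1 | h1
  · exact h1
  · by_cases h0 : x = 0
    · rw [h0]
      exact O.zero_mem
    · have e : x = -(u * (a + b * x⁻¹ + c * (x⁻¹ * x⁻¹) + d * (x⁻¹ * x⁻¹ * x⁻¹))) := by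
        field_simp
        linear_combination u * h - x ^ 4 * hu3
      rw [e]
      refine O.neg_mem _ (O.mul_mem _ _ hu (O.add_mem _ _ (O.add_mem _ _ (O.add_mem _ _ ha ?_) ?_)
        ?_))
      · exact O.mul_mem _ _ hb h1
      · exact O.mul_mem _ _ hc (O.mul_mem _ _ h1 h1)
      · exact O.mul_mem _ _ hd (O.mul_mem _ _ (O.mul_mem _ _ h1 h1) h1)

theorem t3n_thm : T3NStmt := by
  intro L _ _ O π hloc h3 a b c hd k _ _ ψ hN T hT
  obtain ⟨hN1, hN2⟩ := hN
  rcases T with _ | ⟨x, y, h⟩
  · rfl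
  exfalso
  have h2 : (2 : L) ≠ 0 := by
    exact hloc.two.1
  have hT' : (Point.some x y h : Pt (a : L) (b : L) (c : L)) + Point.some x y h +
      Point.some x y h = 0 := hT
  obtain ⟨l, hy, e1, e2⟩ := three_rel h2 h hT'
  have hC : OnC (a : L) (b : L) (c : L) x y := onC_of h
  have hq := quartic_of hC e1 e2
  by_cases h30 : (3 : L) = 0
  · -- characteristic three
    have hl2 : l ^ 2 = (a : L) := by
      rw [e2, h30]
      ring
    have hl : l ∈ O := mem_of_sq O (by rw [hl2]; exact a.2)
    have h3O : (3 : O) = 0 := by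
      apply Subtype.ext
      exact h30
    have h3k : (3 : k) = 0 := by
      have := congrArg ψ h3O
      rw [map_zero, map_ofNat] at this
      exact this
    apply hN2 h3k
    refine ⟨ψ ⟨l, hl⟩, ?_⟩
    have e : a = ⟨l, hl⟩ * ⟨l, hl⟩ := by
      apply Subtype.ext
      change (a : L) = l * l
      rw [← hl2]
      ring
    have := congrArg ψ e
    rw [map_mul] at this
    exact this
  · have hu : (3 : L)⁻¹ ∈ O := by
      rcases h3 with h3 | h3
      · exact absurd h3 h30
      · exact h3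
    have hn : ∀ n : ℕ, (n : L) ∈ O := fun n => natCast_mem O n
    have hx : x ∈ O := by
      refine mem_of_quartic O (a := 4 * (a : L)) (b := 6 * (b : L)) (c := 12 * (c : L))
        (d := 4 * (a : L) * c - (b : L) ^ 2) hu (inv_mul_cancel₀ h30) ?_ ?_ ?_ ?_ hq
      · exact O.mul_mem _ _ (hn 4) a.2
      · exact O.mul_mem _ _ (hn 6) b.2
      · exact O.mul_mem _ _ (hn 12) c.2
      · exact sub_mem (O.mul_mem _ _ (O.mul_mem _ _ (hn 4) a.2) c.2) (pow_mem b.2 2)
    have hyO : y ∈ O := by
      apply mem_of_sq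
      unfold OnC at hC
      rw [hC]
      exact O.add_mem _ _ (O.add_mem _ _ (O.add_mem _ _ (pow_mem hx 3)
        (O.mul_mem _ _ a.2 (pow_mem hx 2))) (O.mul_mem _ _ b.2 hx)) c.2
    have hl : l ∈ O := by
      apply mem_of_sq
      rw [e2]
      exact O.add_mem _ _ a.2 (O.mul_mem _ _ (hn 3) hx)
    have h3k : (3 : k) ≠ 0 := by
      intro h0
      have e : ψ (⟨(3 : L)⁻¹, hu⟩ * 3) = 1 := by
        rw [← map_one ψ]
        congr 1
        apply Subtype.ext
        exact inv_mul_cancel₀ h30
      rw [map_mul, map_ofNat, h0, mul_zero] at e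
      exact zero_ne_one e
    apply hN1 h3k
    set X : O := ⟨x, hx⟩
    set Y : O := ⟨y, hyO⟩
    set l' : O := ⟨l, hl⟩
    have E2 : a = l' ^ 2 - 3 * X := by
      apply Subtype.ext
      change (a : L) = l ^ 2 - 3 * x
      rw [e2]
      ring
    have E1 : b = 3 * X ^ 2 + 2 * l' * (Y - l' * X) := by
      apply Subtype.ext
      change (b : L) = 3 * x ^ 2 + 2 * l * (y - l * x)
      linear_combination -e1 + 2 * x * e2
    have E0 : c = (Y - l' * X) ^ 2 - X ^ 3 := by
      apply Subtype.ext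
      change (c : L) = (y - l * x) ^ 2 - x ^ 3
      unfold OnC at hC
      linear_combination -hC + x * e1 - x ^ 2 * e2
    refine ⟨ψ X, ψ Y, ψ l', ?_, ?_, ?_⟩
    · have := congrArg ψ E2
      simpa only [map_add, map_sub, map_mul, map_pow, map_ofNat] using this
    · have := congrArg ψ E1
      simpa only [map_add, map_sub, map_mul, map_pow, map_ofNat] using this
    · have := congrArg ψ E0
      simpa only [map_add, map_sub, map_mul, map_pow, map_ofNat] using this

end Pool.Agent.H22.AV3B
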