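import Pool.Agent.H8.AV3.Stmts2
import Pool.Agent.H49.AV3.TRS

/-!
# Board `av3b`, module TOR3: the points of order three
-/

set_option autoImplicit false

namespace Pool.Agent.H22.AV3B

open Polynomial Matrix Pool.AVR Pool.AV3 WeierstrassCurve.Affine Pool.Agent.H49.AV3

variable {K : Type} [Field K] [DecidableEq K]

/-- The relations for a point of order three. -/
theorem three_rel {a b c : K} (h2 : (2 : K) ≠ 0) {x y : K}
    (h : (E a b c).toAffine.Nonsingular x y)
    (hT : (Point.some x y h : Pt a b c) + Point.some x y h + Point.some x y h = 0) :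
    ∃ l : K, y ≠ 0 ∧ 2 * y * l = 3 * x ^ 2 + 2 * a * x + b ∧ l ^ 2 = a + 3 * x := by
  have hn : (Point.some x y h : Pt a b c) + Point.some x y h = -Point.some x y h :=
    eq_neg_of_add_eq_zero_left hT
  have hne : (Point.some x y h : Pt a b c) ≠ 0 := by
    intro h0
    cases h0
  have hy : y ≠ 0 := by
    intro hy
    subst hy
    have h' : (E a b c).toAffine.Nonsingular x (-0) := neg_ns h
    have e1 : -(Point.some x 0 h : Pt a b c) = Point.some x 0 h := by
      rw [neg_pt h h']
      exact pt_ext rfl neg_zero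
    have e2 : (Point.some x 0 h : Pt a b c) + Point.some x 0 h = Point.some x 0 h := by
      rw [hn, e1]
    exact hne (left_eq_add.1 e2.symm)
  have h2y : 2 * y ≠ 0 := mul_ne_zero h2 hy
  have hxy : ¬(x = x ∧ y = -y) := by
    rintro ⟨-, h3⟩
    exact h2y (by linear_combination h3)
  obtain ⟨x₃, y₃, h₃, e, -, -, e1, -, -⟩ := line_rel a b c h h hxy _ rfl
  refine ⟨(E a b c).toAffine.slope x x y y, hy, tangent_rel a b c h2 hy _ rfl, ?_⟩
  have hx : x₃ = x := by
    rw [hn, neg_pt h (neg_ns h)] at e
    injection e with e3 e4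
    exact e3.symm
  rw [hx] at e1
  linear_combination -e1

omit [DecidableEq K] in
theorem quartic_of {a b c x y l : K} (hC : OnC a b c x y)
    (h1 : 2 * y * l = 3 * x ^ 2 + 2 * a * x + b) (h2 : l ^ 2 = a + 3 * x) :
    3 * x ^ 4 + 4 * a * x ^ 3 + 6 * b * x ^ 2 + 12 * c * x + (4 * a * c - b ^ 2) = 0 := by
  unfold OnC at hC
  have e : (2 * y * l) ^ 2 = 4 * y ^ 2 * l ^ 2 := by ring
  rw [h1, hC, h2] at e
  linear_combination -e

omit [DecidableEq K] in
theorem quart_coeff {A B D G' H : K}
    (h : (C A * X ^ 4 + C B * X ^ 3 + C D * X ^ 2 + C G' * X + C H : K[X]) = 0) :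
    A = 0 ∧ B = 0 ∧ H = 0 := by
  have h4 := congrArg (fun p : K[X] => p.coeff 4) h
  have h3 := congrArg (fun p : K[X] => p.coeff 3) h
  have h0 := congrArg (fun p : K[X] => p.coeff 0) h
  simp [coeff_X, coeff_C] at h4 h3 h0
  exact ⟨h4, h3, h0⟩

omit [DecidableEq K] in
/-- The polynomial of the abscissas of the points of order three. -/
theorem quartic_ne {a b c : K} (h2 : (2 : K) ≠ 0) (hd : disc a b c ≠ 0) :
    (C 3 * X ^ 4 + C (4 * a) * X ^ 3 + C (6 * b) * X ^ 2 + C (12 * c) * X +
      C (4 * a * c - b ^ 2) : K[X]) ≠ 0 := by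
  intro h
  obtain ⟨h4, h3, h0⟩ := quart_coeff h
  have h4' : (4 : K) ≠ 0 := by
    have : (4 : K) = 2 * 2 := by norm_num
    rw [this]
    exact mul_ne_zero h2 h2
  have ha : a = 0 := by
    rcases mul_eq_zero.1 h3 with h3 | h3
    · exact absurd h3 h4'
    · exact h3
  have hb : b = 0 := by
    have : b ^ 2 = 0 := by
      rw [ha] at h0
      linear_combination -h0
    exact pow_eq_zero_iff (two_ne_zero) |>.1 this
  apply hd
  unfold disc
  rw [ha, hb]
  linear_combination -9 * c ^ 2 * h4

omit [DecidableEq K] in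
theorem quartic_deg (a b c : K) :
    (C 3 * X ^ 4 + C (4 * a) * X ^ 3 + C (6 * b) * X ^ 2 + C (12 * c) * X +
      C (4 * a * c - b ^ 2) : K[X]).natDegree ≤ 4 := by
  compute_degree

theorem tor3_thm : TOR3Stmt := by
  intro K _ _ h2 f hd
  obtain ⟨a, b, c⟩ := f
  change disc a b c ≠ 0 at hd
  set Q : K[X] := C 3 * X ^ 4 + C (4 * a) * X ^ 3 + C (6 * b) * X ^ 2 + C (12 * c) * X +
      C (4 * a * c - b ^ 2) with hQ
  have hQ0 : Q ≠ 0 := quartic_ne h2 hd
  have hQd : Q.natDegree ≤ 4 := quartic_deg a b c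
  set S2 : K → K[X] := fun x => X ^ 2 - C (x ^ 3 + a * x ^ 2 + b * x + c) with hS2
  set B : Finset (K × K) := Q.roots.toFinset.biUnion
    (fun x => (S2 x).roots.toFinset.image (fun y => (x, y))) with hB
  have hBc : B.card ≤ 8 := by
    have h1 : B.card ≤ ∑ x ∈ Q.roots.toFinset,
        ((S2 x).roots.toFinset.image (fun y => (x, y))).card := Finset.card_biUnion_le
    have h3 : ∀ x ∈ Q.roots.toFinset, ((S2 x).roots.toFinset.image (fun y => (x, y))).card ≤ 2 := by
      intro x _
      refine le_trans Finset.card_image_le (le_trans (Multiset.toFinset_card_le _) ?_)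
      refine le_trans (Polynomial.card_roots' _) ?_
      rw [hS2]
      simp only
      exact le_of_eq (natDegree_X_pow_sub_C)
    have h4 : Q.roots.toFinset.card ≤ 4 :=
      le_trans (Multiset.toFinset_card_le _) (le_trans (Polynomial.card_roots' _) hQd)
    have h5 := Finset.sum_le_card_nsmul _ _ _ h3
    rw [smul_eq_mul] at h5
    omega
  have hmem : ∀ (x y : K) (h : (E a b c).toAffine.Nonsingular x y),
      (Point.some x y h : Pt a b c) + Point.some x y h + Point.some x y h = 0 → (x, y) ∈ B := by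
    intro x y h hT
    obtain ⟨l, hy, h3, h4⟩ := three_rel h2 h hT
    have hC := onC_of h
    have hq := quartic_of hC h3 h4
    rw [hB, Finset.mem_biUnion]
    refine ⟨x, ?_, ?_⟩
    · rw [Multiset.mem_toFinset, mem_roots hQ0, IsRoot.def, hQ]
      simp only [eval_add, eval_mul, eval_C, eval_pow, eval_X]
      exact hq
    · rw [Finset.mem_image]
      refine ⟨y, ?_, rfl⟩
      have hne : S2 x ≠ 0 := by
        rw [hS2]
        exact X_pow_sub_C_ne_zero (by norm_num) _
      rw [Multiset.mem_toFinset, mem_roots hne, IsRoot.def, hS2]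
      simp only [eval_sub, eval_pow, eval_X, eval_C]
      unfold OnC at hC
      rw [hC, sub_self]
  -- the injection
  let emb : Pt a b c → Option (K × K) := fun T => match T with
    | .zero => none
    | .some x y _ => some (x, y)
  have hinj : Function.Injective emb := by
    intro T T' hTT
    rcases T with _ | ⟨x, y, h⟩ <;> rcases T' with _ | ⟨x', y', h'⟩
    · rfl
    · simp [emb] at hTT
    · simp [emb] at hTT
    · simp only [emb, Option.some.injEq, Prod.mk.injEq] at hTT
      exact pt_ext hTT.1 hTT.2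
  set S : Set (Pt a b c) := {T | T + T + T = 0} with hS
  set D : Finset (Option (K × K)) := Finset.insertNone B with hD
  have hsub : emb '' S ⊆ (D : Set (Option (K × K))) := by
    rintro _ ⟨T, hT, rfl⟩
    rcases T with _ | ⟨x, y, h⟩
    · simp [emb, hD]
    · have := hmem x y h hT
      simpa [emb, hD] using this
  have hfin : (emb '' S).Finite := (Finset.finite_toSet D).subset hsub
  have hfinS : S.Finite := Set.Finite.of_finite_image hfin hinj.injOn
  refine ⟨hfinS, ?_⟩
  change S.ncard ≤ 9
  rw [← Set.ncard_image_of_injective S hinj]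
  refine le_trans (Set.ncard_le_ncard hsub (Finset.finite_toSet D)) ?_
  rw [Set.ncard_coe_finset, hD, Finset.card_insertNone]
  omega

end Pool.Agent.H22.AV3B
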